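import Mathlib
import Pool.Agent.W307.RS.Stm

/-!
# Project SE: 2-Selmer groups

The bounds of the projects RT and RS for `2 ^ rank` hold for the order of the 2-Selmer group.
-/

namespace Pool.Agent.W307.SE

open Finset Pool.Agent.W262.RK Pool.Agent.W307.RT Pool.Agent.W307.RS

/-- the pair `(d1, d2)` comes from a point of `y² = x (x - A) (x - B)` over the field `K` -/
def Loc (K : Type) [Field K] (A B d1 d2 : ℤ) : Prop :=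
  ∃ x y : K, y ≠ 0 ∧ y ^ 2 = x * (x - A) * (x - B) ∧ IsSquare (x * d1) ∧ IsSquare ((x - A) * d2)

/-- the 2-Selmer group of `y² = x (x - A) (x - B)` over the rationals, as a set of pairs of
squarefree integers -/
def Sel (A B : ℤ) : Set (ℤ × ℤ) :=
  {d | Squarefree d.1 ∧ Squarefree d.2 ∧ Loc ℝ A B d.1 d.2 ∧
    ∀ (p : ℕ) [Fact p.Prime], Loc ℚ_[p] A B d.1 d.2}

/-- RATP: a p-adic point of the curve gives a rational point of a twist of the curve by an integer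
`D` prime to `p` which is a square modulo `p`, in the same square classes. -/
def RATP : Prop := ∀ (p : ℕ) [Fact p.Prime] (A B : ℤ) (x y : ℚ_[p]), p ≠ 2 → y ≠ 0 →
  y ^ 2 = x * (x - A) * (x - B) →
  ∃ (D : ℤ) (x' y' : ℚ), ¬ (p : ℤ) ∣ D ∧ jacobiSym D p = 1 ∧ y' ≠ 0 ∧
    y' ^ 2 = x' * (x' - (A * D : ℤ)) * (x' - (B * D : ℤ)) ∧
    IsSquare (x * ((x' : ℚ) : ℚ_[p])) ∧ IsSquare ((x - A) * ((x' - (A * D : ℤ) : ℚ) : ℚ_[p]))

/-- LOCMP: `LOCM` for the p-adic points. -/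
def LOCMP : Prop := ∀ (c : Fin 4) (κ : ℤ) (p : ℕ) [Fact p.Prime] (A B : ℤ), c ≠ 3 → p ≠ 2 →
  ¬ (p : ℤ) ∣ κ → A ≠ 0 → B ≠ 0 → A ≠ B → LocM c κ p A B → ∀ x y : ℚ_[p], y ≠ 0 →
  y ^ 2 = x * (x - A) * (x - B) → ∀ e1 e2 : ℤ, Squarefree e1 → Squarefree e2 →
  IsSquare (x * e1) → IsSquare ((x - A) * e2) →
    LL c (fun _ => κ) false p (dv p e1) (dv p e2) (sgn p e1) (sgn p e2)

/-- LOCLP: `LOCL` for the p-adic points. -/
def LOCLP : Prop := ∀ (c : Fin 4) (κ : Fin 3 → ℤ) (neg : Bool) (p : ℕ) [Fact p.Prime] (A B : ℤ),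
  p ≠ 2 → (∀ k, ¬ (p : ℤ) ∣ κ k) → LocH c κ neg p A B → ∀ x y : ℚ_[p], y ≠ 0 →
  y ^ 2 = x * (x - A) * (x - B) → ∀ e1 e2 : ℤ, Squarefree e1 → Squarefree e2 →
  IsSquare (x * e1) → IsSquare ((x - A) * e2) →
    LL c κ neg p (dv p e1) (dv p e2) (sgn p e1) (sgn p e2)

/-- GOODP: at the primes of good reduction the Selmer classes are unramified. -/
def GOODP : Prop := ∀ (p : ℕ) [Fact p.Prime] (A B d1 d2 : ℤ), ¬ (p : ℤ) ∣ 2 * A * B * (A - B) →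
  Squarefree d1 → Squarefree d2 → Loc ℚ_[p] A B d1 d2 → ¬ (p : ℤ) ∣ d1 ∧ ¬ (p : ℤ) ∣ d2

/-- SELD: the 2-Selmer group and the local count. -/
def SELD : Prop := ∀ (m : ℕ) (L : ℕ → Bool → Bool → Bool → Bool → Prop) (A B : ℤ), A ≠ 0 →
  B ≠ 0 → A ≠ B → Odd m → Squarefree m → (∀ p, p.Prime → p ∣ m → XC (L p)) →
  (∀ (p : ℕ) [Fact p.Prime], p ∣ m → ∀ x y : ℚ_[p], y ≠ 0 → y ^ 2 = x * (x - A) * (x - B) →
    ∀ e1 e2 : ℤ, Squarefree e1 → Squarefree e2 → IsSquare (x * e1) → IsSquare ((x - A) * e2) →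
    L p (dv p e1) (dv p e2) (sgn p e1) (sgn p e2)) →
  (Sel A B).Finite ∧ (Sel A B).ncard ≤
    4 ^ (((2 * A * B * (A - B)).natAbs.primeFactors.filter (fun q => ¬ q ∣ m)).card + 2) * NL m L

/-- SEL2B: as `RANK2B`, for the 2-Selmer group. -/
def SEL2B : Prop := ∀ (J : Type) [Fintype J] [DecidableEq J] (cls : J → Fin 4) (a : Fin 3 → ℤ)
  (μ : J → ℕ) (α β : J → ℤ) (z B : ℕ), (∀ j, cls j ≠ 3) → (∀ k, a k ≠ 0) → (∀ j, 1 ≤ μ j) →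
  Bg α β z → (∀ p : ℕ, p.Prime → z < p → ∀ k, ¬ (p : ℤ) ∣ a k) →
  (∀ k, Even (∑ l ∈ fc cls k, μ l)) → (∀ j, kapM cls a μ α β j ≠ 0) →
  (∀ j, (kapM cls a μ α β j).natAbs ≤ z) →
  (∀ j, Odd (μ j) ∨ IsSquare (kapM cls a μ α β j)) →
  (∀ u v : ℤ, FM cls a μ (fv α β u v) 0 - FM cls a μ (fv α β u v) 1 =
    FM cls a μ (fv α β u v) 2) →
  ∀ (X y k : ℕ) (u v : ℤ), IsCoprime u v → (∀ j, fv α β u v j ≠ 0) →
  (∀ j, (fv α β u v j).natAbs ≤ X ^ B) → 1 ≤ X → 1 ≤ y → X < (y + 1) ^ k →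
    (Sel (FM cls a μ (fv α β u v) 0) (FM cls a μ (fv α β u v) 1)).Finite ∧
    (Sel (FM cls a μ (fv α β u v) 0) (FM cls a μ (fv α β u v) 1)).ncard ≤
      4 ^ (z + 2) * ((4 ^ B) ^ Fintype.card J) ^ k *
        4 ^ (∑ j, (S2 z y (fv α β u v) j).primeFactors.card) *
        NL (∏ j, S1 z y (fv α β u v) j)
          (LLs cls (fun j _ => kapM cls a μ α β j) (S1 z y (fv α β u v)) ∅)

/-- SEL4B: as `RANK4B`, for the 2-Selmer group. -/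
def SEL4B : Prop := ∀ (J : Type) [Fintype J] [DecidableEq J] (cls : J → Fin 4) (a : Fin 3 → ℤ)
  (α β : J → ℤ) (z y X k B : ℕ), Big4 a α β z → (∀ k, a k ≠ 0) →
  (∀ j k, kap4 cls a α β j k ≠ 0) → (∀ j k, (kap4 cls a α β j k).natAbs ≤ z) → ∀ t : ℤ,
  F4 cls a α β t 0 - F4 cls a α β t 1 = F4 cls a α β t 2 →
  (∀ j, ff α β t j ≠ 0) → (∀ j, (ff α β t j).natAbs ≤ X ^ B) → 1 ≤ X → 1 ≤ y →
  X < (y + 1) ^ k →
    (Sel (F4 cls a α β t 0) (F4 cls a α β t 1)).Finite ∧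
    (Sel (F4 cls a α β t 0) (F4 cls a α β t 1)).ncard ≤
      4 ^ (z + 2) * ((4 ^ B) ^ Fintype.card J) ^ k *
        4 ^ (∑ j, (s2 α β z y t j).primeFactors.card) *
        NL (∏ j, s1 α β z y t j) (LLs cls (kap4 cls a α β) (s1 α β z y t)
          (neg3 cls α β t (s1 α β z y t)))

/-- PARX: parametrisation of the curves with `Z/2 x Z/m`, with the roots. -/
def PARX (m k : ℕ) (M N : ℤ → ℤ → ℤ) : Prop :=
  ∃ (C : ℕ) (F : ℤ × ℤ → ℤ × ℤ), ∀ H : ℕ, Set.InjOn F (Cv m H : Set (ℤ × ℤ)) ∧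
    ∀ c ∈ Cv m H, IsCoprime (F c).1 (F c).2 ∧ M (F c).1 (F c).2 ≠ 0 ∧ N (F c).1 (F c).2 ≠ 0 ∧
      M (F c).1 (F c).2 ≠ N (F c).1 (F c).2 ∧
      (F c).1.natAbs ^ k ≤ C * H ∧ (F c).2.natAbs ^ k ≤ C * H ∧
      ∃ (e1 e2 e3 : ℤ) (q : ℚ), q ≠ 0 ∧
        (∀ x : ℤ, x ^ 3 + c.1 * x + c.2 = (x - e1) * (x - e2) * (x - e3)) ∧
        ((e2 - e1 : ℤ) : ℚ) = -(M (F c).1 (F c).2 : ℚ) * q ^ 2 ∧
        ((e3 - e1 : ℤ) : ℚ) = -(N (F c).1 (F c).2 : ℚ) * q ^ 2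

/-- the local condition for `y² = x³ + A x + B`: the classes of `x - e`, `e` the integer roots -/
def LocR (K : Type) [Field K] (A B : ℤ) (d : ℤ → ℤ) : Prop :=
  ∃ x y : K, y ≠ 0 ∧ y ^ 2 = x ^ 3 + A * x + B ∧
    ∀ e : ℤ, e ^ 3 + A * e + B = 0 → IsSquare ((x - e) * d e)

/-- the 2-Selmer group of `y² = x³ + A x + B` (with three integer roots), as a set of functions: the
values of `d` at the roots are squarefree integers, the other values are one -/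
def SelR (A B : ℤ) : Set (ℤ → ℤ) :=
  {d | (∀ e, Squarefree (d e)) ∧ (∀ e : ℤ, e ^ 3 + A * e + B ≠ 0 → d e = 1) ∧ LocR ℝ A B d ∧
    ∀ (p : ℕ) [Fact p.Prime], LocR ℚ_[p] A B d}

/-- SELC: comparison of the two descriptions of the 2-Selmer group. -/
def SELC : Prop := ∀ (A B e1 e2 e3 M N : ℤ) (q : ℚ), 4 * A ^ 3 + 27 * B ^ 2 ≠ 0 →
  (∀ x : ℤ, x ^ 3 + A * x + B = (x - e1) * (x - e2) * (x - e3)) → q ≠ 0 →
  ((e2 - e1 : ℤ) : ℚ) = M * q ^ 2 → ((e3 - e1 : ℤ) : ℚ) = N * q ^ 2 → (Sel M N).Finite →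
    (SelR A B).Finite ∧ (SelR A B).ncard ≤ (Sel M N).ncard

end Pool.Agent.W307.SE
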