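import Mathlib
import Pool.Agent.W307.SE.Stm
import Pool.Agent.W925.RS.AVGK

/-!
# The moments of the twists in short intervals, for a general function of the curve

After `Pool.Agent.W925.RS.AVGK` (helper925).
-/

set_option autoImplicit false

namespace Pool.Agent.W307.SE

open Finset Pool.Agent.W262.RK Pool.Agent.W307.RT Pool.Agent.W925.RS

/-- as `RANK4B`, for a function of the curve -/
def R4G (Rf : ℤ → ℤ → ℝ) : Prop := ∀ (J : Type) [Fintype J] [DecidableEq J] (cls : J → Fin 4)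
  (a : Fin 3 → ℤ) (α β : J → ℤ) (z y X k B : ℕ), Big4 a α β z → (∀ k, a k ≠ 0) →
  (∀ j k, kap4 cls a α β j k ≠ 0) → (∀ j k, (kap4 cls a α β j k).natAbs ≤ z) → ∀ t : ℤ,
  F4 cls a α β t 0 - F4 cls a α β t 1 = F4 cls a α β t 2 →
  (∀ j, ff α β t j ≠ 0) → (∀ j, (ff α β t j).natAbs ≤ X ^ B) → 1 ≤ X → 1 ≤ y →
  X < (y + 1) ^ k →
    Rf (F4 cls a α β t 0) (F4 cls a α β t 1) ≤
      4 ^ (z + 2) * ((4 ^ B) ^ Fintype.card J) ^ k *
        4 ^ (∑ j, (s2 α β z y t j).primeFactors.card) *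
        (NL (∏ j, s1 α β z y t j) (LLs cls (kap4 cls a α β) (s1 α β z y t)
          (neg3 cls α β t (s1 α β z y t))) : ℝ)

/-- as `AVGK`, for a function of the curve -/
def AVGKG (Rf : ℤ → ℤ → ℝ) : Prop := ∀ (J : Type) [Fintype J] [DecidableEq J] (a : Fin 3 → ℤ)
  (α β : J → ℤ) (k B : ℕ), (∀ k, a k ≠ 0) → a 0 - a 1 = a 2 → (∀ j, α j ≠ 0) →
  (∀ j l, j ≠ l → Res α β j l ≠ 0) → 1 ≤ k →
  ∃ C : ℝ, ∀ (N : ℤ) (X : ℕ), 1 ≤ X → N.natAbs ≤ X ^ B →
    ∑ t ∈ (Icc 1 X).filter (fun t : ℕ => ∀ j, ff α β (N + (t : ℤ)) j ≠ 0),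
      Rf (a 0 * ∏ j, ff α β (N + (t : ℤ)) j)
        (a 1 * ∏ j, ff α β (N + (t : ℤ)) j) ^ k ≤ C * X

theorem avgkg_of {Rf : ℤ → ℤ → ℝ} (hRf : ∀ A B, 0 ≤ Rf A B) (hcnt : Pool.Agent.W307.RS.CNT4U)
    (hrank : R4G Rf) (hant : Pool.Agent.W307.RS.ANTU) (hsub : Pool.Agent.W307.RS.SUBBK)
    (hma : Pool.Agent.W307.RS.MAK) : AVGKG Rf := by
  intro J _ _ a α β k0 B ha ha2 hα hR hk0
  obtain ⟨cls, hcls⟩ : ∃ cls, cls = Pool.Agent.W307.RS.c3 J := ⟨_, rfl⟩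
  obtain ⟨κ, hκdef⟩ : ∃ κ, κ = kap4 cls a α β := ⟨_, rfl⟩
  have hκ0 : ∀ j k, κ j k ≠ 0 := by
    rw [hκdef]
    exact kap4_ne cls a α β hα ha hR
  obtain ⟨z0, hz0⟩ := hma J k0 κ hk0 hκ0
  set n := Fintype.card J with hn
  set z : ℕ := z0 + (2 * n + 2) + ∑ k, (a k).natAbs + ∑ j, (α j).natAbs +
    ∑ j, ∑ l, (Res α β j l).natAbs + ∑ j, ∑ k, (κ j k).natAbs with hz
  have hB : Big4 a α β z := by
    refine ⟨⟨by omega, fun p hp hzp => ⟨fun j h => ?_, fun j l hjl h => ?_⟩⟩,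
      fun p hp hzp k h => ?_⟩
    · have h1 := Nat.le_of_dvd (Int.natAbs_pos.2 (hα j)) (Int.natCast_dvd.1 h)
      have h2 := single_le_sum (f := fun j => (α j).natAbs) (fun _ _ => Nat.zero_le _) (mem_univ j)
      omega
    · have h1 := Nat.le_of_dvd (Int.natAbs_pos.2 (hR j l hjl)) (Int.natCast_dvd.1 h)
      have h2 := single_le_sum (f := fun l => (Res α β j l).natAbs) (fun _ _ => Nat.zero_le _)
        (mem_univ l)
      have h3 := single_le_sum (f := fun j => ∑ l, (Res α β j l).natAbs) (fun _ _ => Nat.zero_le _)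
        (mem_univ j)
      omega
    · have h1 := Nat.le_of_dvd (Int.natAbs_pos.2 (ha k)) (Int.natCast_dvd.1 h)
      have h2 := single_le_sum (f := fun k => (a k).natAbs) (fun _ _ => Nat.zero_le _) (mem_univ k)
      omega
  have hκz : ∀ j k, (κ j k).natAbs ≤ z := by
    intro j k
    have h1 := single_le_sum (f := fun k => (κ j k).natAbs) (fun _ _ => Nat.zero_le _) (mem_univ k)
    have h2 := single_le_sum (f := fun j => ∑ k, (κ j k).natAbs) (fun _ _ => Nat.zero_le _)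
      (mem_univ j)
    omega
  have hz2 : 2 ≤ z := by omega
  obtain ⟨C', hC'⟩ := hz0 z (by omega)
  obtain ⟨C, K, y0, hC0, hK1, hcn⟩ := hcnt J cls z hB.1.1
  -- the shifted forms
  have hff : ∀ (N t : ℤ) (j : J), ff α (fun j => α j * N + β j) t j = ff α β (N + t) j := by
    intro N t j
    unfold ff
    ring
  have hBg : ∀ N : ℤ, Bg α (fun j => α j * N + β j) z := by
    intro N
    refine ⟨hB.1.1, fun p hp hzp => ⟨(hB.1.2 p hp hzp).1, fun j l hjl => ?_⟩⟩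
    have h1 := (hB.1.2 p hp hzp).2 j l hjl
    have h2 : Res α (fun j => α j * N + β j) j l = Res α β j l := by
      unfold Res
      ring
    rw [h2]
    exact h1
  have hs1 : ∀ (N t : ℤ) (y : ℕ), s1 α (fun j => α j * N + β j) z y t =
      S1 z y (ff α β (N + t)) := by
    intro N t y
    funext j
    unfold s1 S1
    simp only [hff]
  have hs2 : ∀ (N t : ℤ) (y : ℕ), s2 α (fun j => α j * N + β j) z y t =
      S2 z y (ff α β (N + t)) := by
    intro N t y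
    funext j
    unfold s2 S2
    simp only [hff]
  have hng : ∀ (N t : ℤ) (s : J → ℕ), neg3 cls α (fun j => α j * N + β j) t s =
      neg3 cls α β (N + t) s := by
    intro N t s
    unfold neg3
    simp only [hff]
  set y1 : ℕ := y0 + ∑ j, (2 * (α j).natAbs + (β j).natAbs) + 1 with hy1
  -- the summand
  let r : ℤ → ℝ := fun w => Rf (a 0 * ∏ j, ff α β w j) (a 1 * ∏ j, ff α β w j) ^ k0
  have hr0 : ∀ w, 0 ≤ r w := fun w => pow_nonneg (hRf _ _) _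
  suffices key : ∃ C2 : ℝ, ∀ θ : {θ : ℤ × ℕ // 1 ≤ θ.2 ∧ θ.1.natAbs ≤ θ.2 ^ B},
      ∑ t ∈ (Icc 1 θ.1.2).filter (fun t : ℕ => ∀ j, ff α β (θ.1.1 + (t : ℤ)) j ≠ 0),
        r (θ.1.1 + (t : ℤ)) ≤ C2 * (θ.1.2 : ℝ) by
    obtain ⟨C2, hC2⟩ := key
    exact ⟨C2, fun N X hX hN => hC2 ⟨(N, X), hX, hN⟩⟩
  refine hant J ℕ {θ : ℤ × ℕ // 1 ≤ θ.2 ∧ θ.1.natAbs ≤ θ.2 ^ B}
    (fun θ => (Icc 1 θ.1.2).filter (fun t : ℕ => ∀ j, ff α β (θ.1.1 + (t : ℤ)) j ≠ 0))
    (fun θ => θ.1.2) (fun θ t => ff α β (θ.1.1 + (t : ℤ))) (fun θ => (θ.1.2 : ℝ)) z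
    (Pool.Agent.W307.RS.NBK k0 κ) (fun θ t => r (θ.1.1 + (t : ℤ))) (4 ^ k0)
    (C * (4 ^ (z + 2)) ^ k0) C' (((4 ^ (B + 2)) ^ n) ^ k0) K y1 hB.1.1 (fun θ => θ.2.1)
    (fun θ => Nat.cast_nonneg _) (fun X0 => ?_) (fun θ t ht => ?_) (fun s => ?_)
    (fun θ t => hr0 _) (one_le_pow₀ (by norm_num)) (by positivity)
    (one_le_pow₀ (one_le_pow₀ (one_le_pow₀ (by norm_num)))) hK1
    (fun y hy s e hse => hsub J k0 κ z y hz2 hκ0 hκz s e hse) hC' ?_
  · -- small scales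
    refine ⟨∑ N ∈ Icc (-((X0 : ℤ) ^ B)) ((X0 : ℤ) ^ B), ∑ t ∈ Icc 1 X0, r (N + (t : ℤ)), ?_⟩
    rintro ⟨⟨N, X⟩, hX, hN⟩ hle
    simp only at hX hN hle ⊢
    have hX0 : X ^ B ≤ X0 ^ B := Nat.pow_le_pow_left hle B
    have hmem : N ∈ Icc (-((X0 : ℤ) ^ B)) ((X0 : ℤ) ^ B) := by
      rw [mem_Icc]
      have h1 : (N.natAbs : ℤ) ≤ (X0 : ℤ) ^ B := by exact_mod_cast hN.trans hX0
      omega
    have h1 : ∑ t ∈ (Icc 1 X).filter (fun t : ℕ => ∀ j, ff α β (N + (t : ℤ)) j ≠ 0),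
        r (N + (t : ℤ)) ≤ ∑ t ∈ Icc 1 X0, r (N + (t : ℤ)) := by
      refine sum_le_sum_of_subset_of_nonneg ?_ fun t _ _ => hr0 _
      exact (filter_subset _ _).trans (Icc_subset_Icc_right hle)
    have h2 : ∑ t ∈ Icc 1 X0, r (N + (t : ℤ)) ≤
        ∑ N ∈ Icc (-((X0 : ℤ) ^ B)) ((X0 : ℤ) ^ B), ∑ t ∈ Icc 1 X0, r (N + (t : ℤ)) :=
      single_le_sum (f := fun N : ℤ => ∑ t ∈ Icc 1 X0, r (N + (t : ℤ)))
        (fun _ _ => sum_nonneg fun _ _ => hr0 _) hmem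
    have h3 : 0 ≤ ∑ N ∈ Icc (-((X0 : ℤ) ^ B)) ((X0 : ℤ) ^ B), ∑ t ∈ Icc 1 X0, r (N + (t : ℤ)) :=
      sum_nonneg fun _ _ => sum_nonneg fun _ _ => hr0 _
    have h4 : (1 : ℝ) ≤ (X : ℝ) := by exact_mod_cast hX
    exact (h1.trans h2).trans (le_mul_of_one_le_right h3 h4)
  · -- good values
    refine ⟨(mem_filter.1 ht).2, fun p hp hzp j l hjl h => ?_⟩
    exact bg_not_dvd hB.1 hp hzp hjl h.1 h.2
  · unfold Pool.Agent.W307.RS.NBK
    exact mul_nonneg (by positivity) (sum_nonneg fun _ _ => pow_nonneg (Nat.cast_nonneg _) _)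
  -- the local majorant
  rintro ⟨⟨N, X⟩, hX1, hN⟩ y Y k hy0 hzy hyK hk s hs v hv u hu h8 T' hT' hval
  simp only at hX1 hN hyK hk h8 hT' hval ⊢
  have hy00 : y0 ≤ y := by omega
  have hyX : y ≤ X := le_trans (Nat.le_self_pow (by omega) y) hyK
  set g : Finset ℕ → ℝ := fun E => (NL (∏ j, s j) (LLs cls κ s E) : ℝ) ^ k0 with hg
  have hg0 : ∀ E, 0 ≤ g E := fun E => pow_nonneg (Nat.cast_nonneg _) _
  have h1 : ∀ t ∈ T', r (N + (t : ℤ)) ≤
      (4 ^ (z + 2)) ^ k0 * (((4 ^ (B + 2)) ^ n) ^ k0) ^ k *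
        (4 ^ k0) ^ (∑ j, (v j).primeFactors.card) * g (neg3 cls α β (N + (t : ℤ)) s) := by
    intro t ht
    have htT := hT' ht
    rw [mem_filter] at htT
    obtain ⟨ht1, ht0⟩ := htT
    obtain ⟨hts, htv, _⟩ := hval t ht
    have hF : F4 cls a α β (N + (t : ℤ)) 0 - F4 cls a α β (N + (t : ℤ)) 1 =
        F4 cls a α β (N + (t : ℤ)) 2 := by
      rw [hcls, F4_c3, F4_c3, F4_c3, ← ha2]
      ring
    have hsize : ∀ j, (ff α β (N + (t : ℤ)) j).natAbs ≤ X ^ (B + 2) := by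
      intro j
      have e1 : (ff α β (N + (t : ℤ)) j).natAbs ≤ (α j).natAbs * (N.natAbs + t) +
          (β j).natAbs := by
        unfold ff
        refine (Int.natAbs_add_le _ _).trans (Nat.add_le_add_right ?_ _)
        rw [Int.natAbs_mul]
        exact Nat.mul_le_mul_left _ ((Int.natAbs_add_le _ _).trans (by rw [Int.natAbs_natCast]))
      have e2 : t ≤ X := (mem_Icc.1 ht1).2
      have e3 := single_le_sum (f := fun j => 2 * (α j).natAbs + (β j).natAbs)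
          (fun _ _ => Nat.zero_le _) (mem_univ j)
      have e4 : 2 * (α j).natAbs + (β j).natAbs ≤ X := by
        have : 2 * (α j).natAbs + (β j).natAbs ≤
          ∑ j, (2 * (α j).natAbs + (β j).natAbs) := e3
        omega
      have e5 : X ^ B ≤ X ^ (B + 1) := Nat.pow_le_pow_right hX1 (by omega)
      have e6 : X ≤ X ^ (B + 1) := Nat.le_self_pow (by omega) X
      have e7 : 1 ≤ X ^ (B + 1) := Nat.one_le_pow _ _ hX1
      calc (ff α β (N + (t : ℤ)) j).natAbs ≤ (α j).natAbs * (N.natAbs + t) + (β j).natAbs := e1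
        _ ≤ (α j).natAbs * (X ^ (B + 1) + X ^ (B + 1)) + (β j).natAbs * X ^ (B + 1) := by
            refine Nat.add_le_add (Nat.mul_le_mul_left _ (Nat.add_le_add (hN.trans e5)
              (e2.trans e6))) (Nat.le_mul_of_pos_right _ e7)
        _ = (2 * (α j).natAbs + (β j).natAbs) * X ^ (B + 1) := by ring
        _ ≤ X * X ^ (B + 1) := Nat.mul_le_mul_right _ e4
        _ = X ^ (B + 2) := by ring
    have hr := hrank J cls a α β z y X k (B + 2) hB ha (hκdef ▸ hκ0) (hκdef ▸ hκz)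
      (N + (t : ℤ)) hF ht0 hsize hX1 (by omega) hk
    have es1 : s1 α β z y (N + (t : ℤ)) = s := hts
    have es2 : s2 α β z y (N + (t : ℤ)) = v := htv
    rw [es1, es2, ← hκdef, ← hn] at hr
    have hF0 : ∀ k, F4 cls a α β (N + (t : ℤ)) k = a k * ∏ j, ff α β (N + (t : ℤ)) j := by
      intro k
      rw [hcls, F4_c3]
    rw [hF0, hF0] at hr
    have hr' : Rf (a 0 * ∏ j, ff α β (N + (t : ℤ)) j)
        (a 1 * ∏ j, ff α β (N + (t : ℤ)) j) ≤
        4 ^ (z + 2) * ((4 ^ (B + 2)) ^ n) ^ k * 4 ^ (∑ j, (v j).primeFactors.card) *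
          (NL (∏ j, s j) (LLs cls κ s (neg3 cls α β (N + (t : ℤ)) s)) : ℝ) := hr
    refine (pow_le_pow_left₀ (hRf _ _) hr' k0).trans (le_of_eq ?_)
    rw [hg]
    simp only [mul_pow]
    rw [← pow_mul 4 (∑ j, (v j).primeFactors.card) k0, ← pow_mul 4 k0, mul_comm k0,
      ← pow_mul ((4 ^ (B + 2)) ^ n) k k0, ← pow_mul ((4 ^ (B + 2)) ^ n) k0 k, mul_comm k k0]
  have hneg : ∀ t ∈ T', neg3 cls α β (N + (t : ℤ)) s ∈ (P3 cls s).powerset := by
    intro t _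
    rw [mem_powerset]
    exact filter_subset _ _
  have h2 : ∑ t ∈ T', g (neg3 cls α β (N + (t : ℤ)) s) =
      ∑ E ∈ (P3 cls s).powerset,
        ((T'.filter (fun t : ℕ => neg3 cls α β (N + (t : ℤ)) s = E)).card : ℝ) * g E := by
    rw [← sum_fiberwise_of_maps_to hneg]
    refine sum_congr rfl fun E _ => ?_
    rw [← nsmul_eq_mul, ← sum_const]
    refine sum_congr rfl fun t ht => ?_
    rw [(mem_filter.1 ht).2]
  set Q : ℝ := C * X * (1 / 2) ^ (P3 cls s).card * (∏ j, gw 1 n (s j)) *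
        (∏ j, gw 1 n (v j) / v j) * (∏ j, 1 / (u j : ℝ)) / (Real.log y) ^ n with hQ
  have h3 : ∀ E ∈ (P3 cls s).powerset,
      ((T'.filter (fun t : ℕ => neg3 cls α β (N + (t : ℤ)) s = E)).card : ℝ) * g E ≤ Q * g E := by
    intro E _
    refine mul_le_mul_of_nonneg_right ?_ (hg0 E)
    refine le_trans ?_ (hcn α (fun j => α j * N + β j) (hBg N) X y Y hy00 hzy hyK s hs v hv u hu
      h8 E)
    have h4 : T'.filter (fun t : ℕ => neg3 cls α β (N + (t : ℤ)) s = E) ⊆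
        (Icc 1 X).filter (fun t : ℕ => s1 α (fun j => α j * N + β j) z y t = s ∧
          s2 α (fun j => α j * N + β j) z y t = v ∧
          (∀ j, (u j : ℤ) ∣ ff α (fun j => α j * N + β j) t j) ∧
          neg3 cls α (fun j => α j * N + β j) t s = E) := by
      intro t ht
      rw [mem_filter] at ht
      rw [mem_filter]
      obtain ⟨ht', htE⟩ := ht
      obtain ⟨hts, htv, htu⟩ := hval t ht'
      refine ⟨(mem_filter.1 (hT' ht')).1, ?_, ?_, fun j => ?_, ?_⟩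
      · rw [hs1]
        exact hts
      · rw [hs2]
        exact htv
      · rw [hff]
        exact htu j
      · rw [hng]
        exact htE
    exact_mod_cast card_le_card h4
  calc ∑ t ∈ T', r (N + (t : ℤ))
      ≤ ∑ t ∈ T', (4 ^ (z + 2)) ^ k0 * (((4 ^ (B + 2)) ^ n) ^ k0) ^ k *
        (4 ^ k0) ^ (∑ j, (v j).primeFactors.card) * g (neg3 cls α β (N + (t : ℤ)) s) :=
        sum_le_sum h1
    _ = (4 ^ (z + 2)) ^ k0 * (((4 ^ (B + 2)) ^ n) ^ k0) ^ k *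
        (4 ^ k0) ^ (∑ j, (v j).primeFactors.card) *
          ∑ E ∈ (P3 cls s).powerset,
            ((T'.filter (fun t : ℕ => neg3 cls α β (N + (t : ℤ)) s = E)).card : ℝ) * g E := by
        rw [← mul_sum, h2]
    _ ≤ (4 ^ (z + 2)) ^ k0 * (((4 ^ (B + 2)) ^ n) ^ k0) ^ k *
        (4 ^ k0) ^ (∑ j, (v j).primeFactors.card) *
          ∑ E ∈ (P3 cls s).powerset, Q * g E :=
        mul_le_mul_of_nonneg_left (sum_le_sum h3) (by positivity)
    _ = _ := by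
        have e1 : Pool.Agent.W307.RS.NBK k0 κ s =
            (1 / 2) ^ (P3 cls s).card * ∑ E ∈ (P3 cls s).powerset, g E := by
          rw [hg, hcls]
          rfl
        have e2 : (∏ j, ((4 : ℝ) ^ k0) ^ (v j).primeFactors.card * (gw 1 n (v j) / v j)) =
            (4 ^ k0) ^ (∑ j, (v j).primeFactors.card) * ∏ j, (gw 1 n (v j) / v j) := by
          rw [prod_mul_distrib, prod_pow_eq_pow_sum]
        rw [← mul_sum, e1, e2, hQ]
        ring

end Pool.Agent.W307.SE
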