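import Mathlib
import Pool.Agent.W307.SE.Avg2G
import Pool.Agent.W397.RS.FAMS

/-!
# Short squares for a family of binary forms, for a general function of the curve

After `Pool.Agent.W397.RS.FAMS` (helper397).
-/

set_option autoImplicit false

namespace Pool.Agent.W307.SE

open Finset Pool.Agent.W262.RK Pool.Agent.W307.RT Pool.Agent.W307.RS Pool.Agent.W397.RS

open Classical in
/-- the summand -/
noncomputable def GGg (Rf : ℤ → ℤ → ℝ) (M N : ℤ → ℤ → ℤ) (t : ℤ × ℤ) : ℝ :=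
  if IsCoprime t.1 t.2 ∧ M t.1 t.2 ≠ 0 ∧ N t.1 t.2 ≠ 0 ∧ M t.1 t.2 ≠ N t.1 t.2 then
    Rf (-(M t.1 t.2)) (-(N t.1 t.2)) else 0

/-- as `FAMS`, for a function of the curve -/
def FAMG (Rf : ℤ → ℤ → ℝ) : Prop := ∀ (J : Type) [Fintype J] [DecidableEq J] (cls : J → Fin 4)
  (a : Fin 3 → ℤ) (μ : J → ℕ) (α β : J → ℤ), (∀ j, cls j ≠ 3) → (∀ k, a k ≠ 0) →
  (∀ j, 1 ≤ μ j) →
  (∀ j, α j ≠ 0) → (∀ j l, j ≠ l → Res α β j l ≠ 0) →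
  (∀ k, Even (∑ l ∈ fc cls k, μ l)) → (∀ j, Odd (μ j) ∨ IsSquare (kapM cls a μ α β j)) →
  (∀ u v : ℤ, FM cls a μ (fv α β u v) 0 - FM cls a μ (fv α β u v) 1 =
    FM cls a μ (fv α β u v) 2) →
  (∃ z0 : ℕ, ∀ z, z0 ≤ z → ∃ C' : ℝ, ∀ y, z < y →
    ∑ s ∈ Tup J z y, NB cls (fun j _ => kapM cls a μ α β j) s *
      ∏ j, gw 1 (Fintype.card J) (s j) ≤ C' * (Real.log y) ^ (Fintype.card J)) →
  ∀ (q : ℕ) (M N : ℤ → ℤ → ℤ), (∀ u v, FM cls a μ (fv α β u v) 0 = -(M u (v + q * u))) →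
  (∀ u v, FM cls a μ (fv α β u v) 1 = -(N u (v + q * u))) →
  ∀ B : ℕ, ∃ C : ℝ, ∀ (N1 N2 : ℤ) (X : ℕ), 1 ≤ X → N1.natAbs ≤ X ^ B → N2.natAbs ≤ X ^ B →
    ∑ t ∈ Icc 1 X ×ˢ Icc 1 X, GGg Rf M N (N1 + (t.1 : ℤ), N2 + (t.2 : ℤ)) ≤ C * X ^ 2

open Classical in
/-- the short squares -/
theorem famg_of {Rf : ℤ → ℤ → ℝ} (hRf : ∀ A B, 0 ≤ Rf A B) (h : AVG2G Rf) : FAMG Rf := by
  intro J _ _ cls a μ α β hcls ha hμ hα hres hev hodd hid hNB q M N hM hN B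
  obtain ⟨C, hC⟩ := h J cls a μ α β hcls ha hμ hα hres hev hodd hid hNB (B + 2)
  refine ⟨C * ((q : ℝ) + 1) ^ 2, ?_⟩
  intro N1 N2 X hX hN1 hN2
  set X' : ℕ := (q + 1) * X with hX'
  have hXX' : X ≤ X' := Nat.le_mul_of_pos_left X (Nat.succ_pos q)
  have hX'1 : 1 ≤ X' := hX.trans hXX'
  set N2' : ℤ := N2 - q * N1 - q * X with hN2'
  have hb1 : N1.natAbs ≤ X' ^ (B + 2) :=
    hN1.trans ((Nat.pow_le_pow_left hXX' B).trans (Nat.pow_le_pow_right hX'1 (by omega)))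
  have hb2 : N2'.natAbs ≤ X' ^ (B + 2) := size_aux q X B hX N1 N2 hN1 hN2
  have key := hC N1 N2' X' hX'1 hb1 hb2
  set H : ℕ × ℕ → ℝ := fun t => if IsCoprime (N1 + (t.1 : ℤ)) (N2' + (t.2 : ℤ)) ∧
      ∀ j, fv α β (N1 + (t.1 : ℤ)) (N2' + (t.2 : ℤ)) j ≠ 0 then
    Rf (FM cls a μ (fv α β (N1 + (t.1 : ℤ)) (N2' + (t.2 : ℤ))) 0)
        (FM cls a μ (fv α β (N1 + (t.1 : ℤ)) (N2' + (t.2 : ℤ))) 1) else 0 with hH
  have hH0 : ∀ t, 0 ≤ H t := by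
    intro t
    rw [hH]
    simp only
    split_ifs
    · exact hRf _ _
    · exact le_rfl
  set φ : ℕ × ℕ → ℕ × ℕ := fun t => (t.1, t.2 + q * (X - t.1)) with hφ
  have hpt : ∀ t ∈ Icc 1 X ×ˢ Icc 1 X,
      GGg Rf M N (N1 + (t.1 : ℤ), N2 + (t.2 : ℤ)) ≤ H (φ t) := by
    intro t ht
    rw [mem_product, mem_Icc, mem_Icc] at ht
    have hv : N2' + ((φ t).2 : ℤ) = (N2 + (t.2 : ℤ)) - q * (N1 + (t.1 : ℤ)) := by
      rw [hφ, hN2']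
      simp only
      push_cast [Nat.cast_sub ht.1.2]
      ring
    have hu : ((φ t).1 : ℤ) = (t.1 : ℤ) := rfl
    have hvq : N2' + ((φ t).2 : ℤ) + q * (N1 + (t.1 : ℤ)) = N2 + (t.2 : ℤ) := by
      rw [hv]; ring
    have hcop : IsCoprime (N1 + (t.1 : ℤ)) (N2' + ((φ t).2 : ℤ)) ↔
        IsCoprime (N1 + (t.1 : ℤ)) (N2 + (t.2 : ℤ)) := by
      have : N2' + ((φ t).2 : ℤ) = N2 + (t.2 : ℤ) + (-(q : ℤ)) * (N1 + (t.1 : ℤ)) := by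
        rw [hv]; ring
      rw [this]
      exact IsCoprime.add_mul_right_right_iff
    by_cases hc : IsCoprime (N1 + (t.1 : ℤ)) (N2 + (t.2 : ℤ)) ∧
        M (N1 + (t.1 : ℤ)) (N2 + (t.2 : ℤ)) ≠ 0 ∧ N (N1 + (t.1 : ℤ)) (N2 + (t.2 : ℤ)) ≠ 0 ∧
        M (N1 + (t.1 : ℤ)) (N2 + (t.2 : ℤ)) ≠ N (N1 + (t.1 : ℤ)) (N2 + (t.2 : ℤ))
    · have b0 := hM (N1 + (t.1 : ℤ)) (N2' + ((φ t).2 : ℤ))
      have b1 := hN (N1 + (t.1 : ℤ)) (N2' + ((φ t).2 : ℤ))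
      have b2 := hid (N1 + (t.1 : ℤ)) (N2' + ((φ t).2 : ℤ))
      rw [hvq] at b0 b1
      have hcond : IsCoprime (N1 + ((φ t).1 : ℤ)) (N2' + ((φ t).2 : ℤ)) ∧
          ∀ j, fv α β (N1 + ((φ t).1 : ℤ)) (N2' + ((φ t).2 : ℤ)) j ≠ 0 := by
        refine ⟨hcop.mpr hc.1, ?_⟩
        apply fv_ne_zero hcls hμ (a := a)
        intro k
        fin_cases k
        · change FM cls a μ _ 0 ≠ 0
          rw [hu, b0]
          exact neg_ne_zero.2 hc.2.1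
        · change FM cls a μ _ 1 ≠ 0
          rw [hu, b1]
          exact neg_ne_zero.2 hc.2.2.1
        · change FM cls a μ _ 2 ≠ 0
          rw [hu, ← b2, b0, b1]
          intro h5
          exact hc.2.2.2 (by linarith)
      have e1 : GGg Rf M N (N1 + (t.1 : ℤ), N2 + (t.2 : ℤ)) =
          Rf (-(M (N1 + (t.1 : ℤ)) (N2 + (t.2 : ℤ))))
            (-(N (N1 + (t.1 : ℤ)) (N2 + (t.2 : ℤ)))) := by
        unfold GGg
        rw [if_pos hc]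
      have e2 : H (φ t) = Rf
          (FM cls a μ (fv α β (N1 + ((φ t).1 : ℤ)) (N2' + ((φ t).2 : ℤ))) 0)
          (FM cls a μ (fv α β (N1 + ((φ t).1 : ℤ)) (N2' + ((φ t).2 : ℤ))) 1) := by
        rw [hH]
        simp only
        rw [if_pos hcond]
      rw [e1, e2, hu, b0, b1]
    · have e1 : GGg Rf M N (N1 + (t.1 : ℤ), N2 + (t.2 : ℤ)) = 0 := by
        unfold GGg
        rw [if_neg hc]
      rw [e1]
      exact hH0 _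
  have hinj : Set.InjOn φ (Icc 1 X ×ˢ Icc 1 X : Finset (ℕ × ℕ)) := by
    intro t _ t' _ htt
    rw [hφ] at htt
    simp only [Prod.mk.injEq] at htt
    obtain ⟨h1, h2⟩ := htt
    rw [h1] at h2
    exact Prod.ext h1 (by omega)
  have hmaps : (Icc 1 X ×ˢ Icc 1 X : Finset (ℕ × ℕ)).image φ ⊆ Icc 1 X' ×ˢ Icc 1 X' := by
    intro t' ht'
    obtain ⟨t, ht, rfl⟩ := mem_image.mp ht'
    rw [mem_product, mem_Icc, mem_Icc] at ht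
    rw [mem_product, mem_Icc, mem_Icc, hφ]
    simp only
    have h3 : q * (X - t.1) ≤ q * X := Nat.mul_le_mul_left q (Nat.sub_le _ _)
    have h4 : X' = q * X + X := by rw [hX']; ring
    refine ⟨⟨ht.1.1, ht.1.2.trans hXX'⟩, ?_, ?_⟩
    · omega
    · omega
  calc ∑ t ∈ Icc 1 X ×ˢ Icc 1 X, GGg Rf M N (N1 + (t.1 : ℤ), N2 + (t.2 : ℤ))
      ≤ ∑ t ∈ Icc 1 X ×ˢ Icc 1 X, H (φ t) := sum_le_sum hpt
    _ = ∑ t' ∈ (Icc 1 X ×ˢ Icc 1 X : Finset (ℕ × ℕ)).image φ, H t' := (sum_image hinj).symm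
    _ ≤ ∑ t' ∈ Icc 1 X' ×ˢ Icc 1 X', H t' :=
        sum_le_sum_of_subset_of_nonneg hmaps (fun t _ _ => hH0 t)
    _ ≤ C * (X' : ℝ) ^ 2 := by
        rw [hH]
        simp only
        rw [← sum_filter]
        exact key
    _ = C * ((q : ℝ) + 1) ^ 2 * X ^ 2 := by
        rw [hX']
        push_cast
        ring

end Pool.Agent.W307.SE
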