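import Mathlib
import Pool.Agent.W307.SE.FamG
import Pool.Agent.W307.SE.AvgKG
import Pool.Agent.W307.RS.Twist6
import Pool.Agent.W307.RS.MainD

/-! Project SE: from the short squares to the curves. -/

namespace Pool.Agent.W307.SE

open Finset Pool.Agent.W262.RK Pool.Agent.W307.RT Pool.Agent.W307.RS

lemma GGg_nonneg {Rf : ℤ → ℤ → ℝ} (hRf : ∀ A B, 0 ≤ Rf A B) (M N : ℤ → ℤ → ℤ) (t : ℤ × ℤ) :
    0 ≤ GGg Rf M N t := by
  unfold GGg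
  split_ifs
  · exact hRf _ _
  · exact le_rfl

/-- from the short squares to the boxes -/
lemma box_of {g : ℤ × ℤ → ℝ} (h : ∀ B : ℕ, ∃ C : ℝ, ∀ (N1 N2 : ℤ) (X : ℕ),
    1 ≤ X → N1.natAbs ≤ X ^ B → N2.natAbs ≤ X ^ B →
    ∑ t ∈ Icc 1 X ×ˢ Icc 1 X, g (N1 + (t.1 : ℤ), N2 + (t.2 : ℤ)) ≤ C * X ^ 2) :
    ∃ C : ℝ, 0 ≤ C ∧ ∀ T : ℕ, 1 ≤ T → ∑ t ∈ Box T, g t ≤ C * (T : ℝ) ^ 2 := by
  obtain ⟨C, hC⟩ := h 1
  refine ⟨max C 0 * 9, by positivity, fun T hT => ?_⟩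
  have h1 := hC (-(T : ℤ) - 1) (-(T : ℤ) - 1) (2 * T + 1) (by omega) (by rw [pow_one]; omega)
    (by rw [pow_one]; omega)
  have h2 : ∑ t ∈ Box T, g t =
      ∑ t ∈ Icc 1 (2 * T + 1) ×ˢ Icc 1 (2 * T + 1), g (-(T : ℤ) - 1 + (t.1 : ℤ),
        -(T : ℤ) - 1 + (t.2 : ℤ)) := by
    symm
    apply sum_bij (fun (t : ℕ × ℕ) _ => ((-(T : ℤ) - 1 + (t.1 : ℤ), -(T : ℤ) - 1 + (t.2 : ℤ)) :
      ℤ × ℤ))
    · intro t ht
      rw [mem_product, mem_Icc, mem_Icc] at ht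
      rw [mem_Box]
      constructor <;> simp only <;> omega
    · intro t _ t' _ htt
      simp only [Prod.mk.injEq] at htt
      ext <;> omega
    · intro t ht
      rw [mem_Box] at ht
      refine ⟨((t.1 + T + 1).toNat, (t.2 + T + 1).toNat), ?_, ?_⟩
      · rw [mem_product, mem_Icc, mem_Icc]
        simp only
        omega
      · ext <;> simp only <;> omega
    · intro t _
      rfl
  rw [h2]
  refine h1.trans ?_
  have h3 : ((2 * T + 1 : ℕ) : ℝ) ^ 2 ≤ 9 * (T : ℝ) ^ 2 := by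
    have h4 : ((2 * T + 1 : ℕ) : ℝ) ≤ 3 * T := by
      have : 2 * T + 1 ≤ 3 * T := by omega
      exact_mod_cast this
    calc ((2 * T + 1 : ℕ) : ℝ) ^ 2 ≤ (3 * T) ^ 2 := pow_le_pow_left₀ (by positivity) h4 2
      _ = 9 * (T : ℝ) ^ 2 := by ring
  calc C * ((2 * T + 1 : ℕ) : ℝ) ^ 2 ≤ max C 0 * ((2 * T + 1 : ℕ) : ℝ) ^ 2 :=
        mul_le_mul_of_nonneg_right (le_max_left _ _) (by positivity)
    _ ≤ max C 0 * (9 * (T : ℝ) ^ 2) := mul_le_mul_of_nonneg_left h3 (by positivity)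
    _ = _ := by ring

/-- the order of the 2-Selmer group -/
noncomputable def SN (A B : ℤ) : ℝ := ((Sel A B).ncard : ℝ)

lemma SN_nonneg (A B : ℤ) : 0 ≤ SN A B := Nat.cast_nonneg _

lemma sel_fin (h : SELD) {A B : ℤ} (hA : A ≠ 0) (hB : B ≠ 0) (hAB : A ≠ B) :
    (Sel A B).Finite := by
  refine (h 1 (fun _ _ _ _ _ => True) A B hA hB hAB odd_one squarefree_one
    (fun p hp hp1 => ?_) (fun p hp hp1 => ?_)).1
  · exact absurd (Nat.dvd_one.1 hp1) hp.one_lt.ne'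
  · exact absurd (Nat.dvd_one.1 hp1) hp.out.one_lt.ne'

lemma r2 (h : SEL2B) : R2G SN := by
  intro J _ _ cls a μ α β z B h1 h2 h3 h4 h5 h6 h7 h8 h9 h10 X y k u v h11 h12 h13 h14 h15 h16
  have := (h J cls a μ α β z B h1 h2 h3 h4 h5 h6 h7 h8 h9 h10 X y k u v h11 h12 h13 h14 h15
    h16).2
  unfold SN
  exact_mod_cast this

lemma r4 (h : SEL4B) : R4G SN := by
  intro J _ _ cls a α β z y X k B h1 h2 h3 h4 t h5 h6 h7 h8 h9 h10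
  have := (h J cls a α β z y X k B h1 h2 h3 h4 t h5 h6 h7 h8 h9 h10).2
  unfold SN
  exact_mod_cast this

/-- the curves, from the boxes -/
lemma curves_of {m k : ℕ} (hk : 1 ≤ k) {M N : ℤ → ℤ → ℤ} (hP : PARX m k M N) (hL : LOW m k)
    (hD : SELD) (hC : SELC)
    (hbox : ∃ C : ℝ, 0 ≤ C ∧ ∀ T : ℕ, 1 ≤ T → ∑ t ∈ Box T, GGg SN M N t ≤ C * (T : ℝ) ^ 2) :
    ∃ C : ℝ, ∀ H : ℕ, (∀ c ∈ Cv m H, (SelR c.1 c.2).Finite) ∧
      ∑ c ∈ Cv m H, ((SelR c.1 c.2).ncard : ℝ) ≤ C * (Cv m H).card := by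
  classical
  obtain ⟨C0, F, hF⟩ := hP
  have key : ∀ H, ∀ c ∈ Cv m H, (SelR c.1 c.2).Finite ∧
      ((SelR c.1 c.2).ncard : ℝ) ≤ GGg SN M N (F c) := by
    intro H c hc
    obtain ⟨h1, h2, h3, h4, _, _, e1, e2, e3, q, hq, hr, h5, h6⟩ := (hF H).2 c hc
    have hdisc : 4 * c.1 ^ 3 + 27 * c.2 ^ 2 ≠ 0 := by
      unfold Cv at hc
      exact (mem_filter.1 hc).2.1
    have hfin := sel_fin hD (A := -(M (F c).1 (F c).2)) (B := -(N (F c).1 (F c).2))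
      (neg_ne_zero.2 h2) (neg_ne_zero.2 h3) (fun h => h4 (neg_injective h))
    obtain ⟨f1, f2⟩ := hC c.1 c.2 e1 e2 e3 (-(M (F c).1 (F c).2)) (-(N (F c).1 (F c).2)) q hdisc
      hr hq (by rw [h5]; push_cast; ring) (by rw [h6]; push_cast; ring) hfin
    refine ⟨f1, ?_⟩
    unfold GGg
    rw [if_pos ⟨h1, h2, h3, h4⟩]
    unfold SN
    exact_mod_cast f2
  obtain ⟨C, hC'⟩ := final_gen hk hL C0 F (fun c => ((SelR c.1 c.2).ncard : ℝ)) (GGg SN M N)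
    (GGg_nonneg SN_nonneg M N) (fun H => ⟨(hF H).1, fun c hc => by
      obtain ⟨_, _, _, _, h5, h6, _⟩ := (hF H).2 c hc
      exact ⟨h5, h6, (key H c hc).2⟩⟩) hbox
  exact ⟨C, fun H => ⟨fun c hc => (key H c hc).1, hC' H⟩⟩

end Pool.Agent.W307.SE
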