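import Mathlib
import Pool.Agent.W307.SE.Stm
import Pool.Agent.W571.RT.LocM
import Pool.Agent.W342.RK2.LocL

/-! Project SE: the local conditions for the p-adic points. -/

namespace Pool.Agent.W307.SE

open Finset Pool.Agent.W262.RK Pool.Agent.W307.RT Pool.Agent.W307.RS

section

variable {p : ℕ} [hp : Fact p.Prime]

lemma nd_mul {B D : ℤ} (hB : ¬ (p : ℤ) ∣ B) (hD : ¬ (p : ℤ) ∣ D) : ¬ (p : ℤ) ∣ B * D := by
  intro h
  rcases (Nat.prime_iff_prime_int.1 hp.out).dvd_or_dvd h with h | h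
  · exact hB h
  · exact hD h

lemma jac_mulD {n D : ℤ} (hD : jacobiSym D p = 1) : jacobiSym (n * D) p = jacobiSym n p := by
  rw [jacobiSym.mul_left, hD, mul_one]

lemma val_mulD {A D : ℤ} (hA : A ≠ 0) (hD : ¬ (p : ℤ) ∣ D) :
    padicValInt p (A * D) = padicValInt p A := by
  have hD0 : D ≠ 0 := by
    rintro rfl
    exact hD (dvd_zero _)
  rw [padicValInt.mul hA hD0, padicValInt.eq_zero_of_not_dvd hD, add_zero]

lemma nd2_mul {A D : ℤ} (hA : ¬ (p : ℤ) ^ 2 ∣ A) (hD : ¬ (p : ℤ) ∣ D) :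
    ¬ (p : ℤ) ^ 2 ∣ A * D := by
  intro h
  have hco : IsCoprime ((p : ℤ) ^ 2) D := IsCoprime.pow_left
    ((Prime.coprime_iff_not_dvd (Nat.prime_iff_prime_int.1 hp.out)).2 hD)
  exact hA (hco.dvd_of_dvd_mul_right h)

lemma sq_tr {a b e : ℚ_[p]} (ha : a ≠ 0) (h1 : IsSquare (a * b)) (h2 : IsSquare (a * e)) :
    IsSquare (b * e) := by
  obtain ⟨u, hu⟩ := h1
  obtain ⟨w, hw⟩ := h2
  refine ⟨u * w / a, ?_⟩
  rw [div_mul_div_comm, eq_div_iff (mul_ne_zero ha ha)]
  calc b * e * (a * a) = (a * b) * (a * e) := by ring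
    _ = (u * u) * (w * w) := by rw [hu, hw]
    _ = u * w * (u * w) := by ring

end

/-- the local conditions with multiplicities -/
theorem locmp_of (h : RATP) : LOCMP := by
  intro c κ p hp A B hc3 hp2 hκ hA0 hB0 hAB hL x y hy hxy e1 e2 he1 he2 s1 s2
  obtain ⟨D, x', y', hD, hDj, hy', hxy', t1, t2⟩ := h p A B x y hp2 hy hxy
  have hD0 : D ≠ 0 := by
    rintro rfl
    exact hD (dvd_zero _)
  have hy2 : y ^ 2 ≠ 0 := pow_ne_zero 2 hy
  rw [hxy] at hy2
  have hx : x ≠ 0 := left_ne_zero_of_mul (left_ne_zero_of_mul hy2)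
  have hxA : x - A ≠ 0 := right_ne_zero_of_mul (left_ne_zero_of_mul hy2)
  refine Pool.Agent.W571.RT.locm c κ p (A * D) (B * D) hc3 hp2 hκ (mul_ne_zero hA0 hD0)
    (mul_ne_zero hB0 hD0) (fun h => hAB (mul_right_cancel₀ hD0 h)) ?_ x' y' hy' hxy' e1 e2 he1 he2
    ?_ ?_
  · unfold LocM at hL ⊢
    by_cases c0 : c = 0
    · rw [if_pos c0] at hL ⊢
      obtain ⟨h1, h2, h3, h4⟩ := hL
      refine ⟨h1.mul_right _, nd_mul h2 hD, ?_, ?_⟩
      · rw [show κ * (-(B * D)) = κ * (-B) * D by ring, jac_mulD hDj]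
        exact h3
      · rw [val_mulD hA0 hD]
        exact h4
    · rw [if_neg c0] at hL ⊢
      by_cases c1 : c = 1
      · rw [if_pos c1] at hL ⊢
        obtain ⟨h1, h2, h3, h4⟩ := hL
        refine ⟨h1.mul_right _, nd_mul h2 hD, ?_, ?_⟩
        · rw [show κ * (-(A * D)) = κ * (-A) * D by ring, jac_mulD hDj]
          exact h3
        · rw [val_mulD hB0 hD]
          exact h4
      · rw [if_neg c1] at hL ⊢
        obtain ⟨h1, h2, h3, h4⟩ := hL
        have e : A * D - B * D = (A - B) * D := by ring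
        refine ⟨?_, nd_mul h2 hD, ?_, ?_⟩
        · rw [e]
          exact h1.mul_right _
        · rw [show κ * (A * D) = κ * A * D by ring, jac_mulD hDj]
          exact h3
        · rw [e, val_mulD (sub_ne_zero.2 hAB) hD]
          exact h4
  · have := sq_tr hx t1 s1
    push_cast
    exact this
  · have := sq_tr hxA t2 s2
    push_cast at this ⊢
    exact this

/-- the local conditions -/
theorem loclp_of (h : RATP) : LOCLP := by
  intro c κ neg p hp A B hp2 hκ hL x y hy hxy e1 e2 he1 he2 s1 s2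
  obtain ⟨D, x', y', hD, hDj, hy', hxy', t1, t2⟩ := h p A B x y hp2 hy hxy
  have hy2 : y ^ 2 ≠ 0 := pow_ne_zero 2 hy
  rw [hxy] at hy2
  have hx : x ≠ 0 := left_ne_zero_of_mul (left_ne_zero_of_mul hy2)
  have hxA : x - A ≠ 0 := right_ne_zero_of_mul (left_ne_zero_of_mul hy2)
  refine Pool.Agent.W342.RK2.locl c κ neg p (A * D) (B * D) hp2 hκ ?_ x' y' hy' hxy' e1 e2 he1 he2
    ?_ ?_
  · unfold LocH at hL ⊢
    by_cases c0 : c = 0
    · rw [if_pos c0] at hL ⊢
      obtain ⟨h1, h2, h3, h4⟩ := hL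
      refine ⟨h1.mul_right _, nd2_mul h2 hD, nd_mul h3 hD, ?_⟩
      rw [show κ 0 * (-(B * D)) = κ 0 * (-B) * D by ring, jac_mulD hDj]
      exact h4
    · rw [if_neg c0] at hL ⊢
      by_cases c1 : c = 1
      · rw [if_pos c1] at hL ⊢
        obtain ⟨h1, h2, h3, h4⟩ := hL
        refine ⟨h1.mul_right _, nd2_mul h2 hD, nd_mul h3 hD, ?_⟩
        rw [show κ 0 * (-(A * D)) = κ 0 * (-A) * D by ring, jac_mulD hDj]
        exact h4
      · rw [if_neg c1] at hL ⊢
        have e : A * D - B * D = (A - B) * D := by ring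
        by_cases c2 : c = 2
        · rw [if_pos c2] at hL ⊢
          obtain ⟨h1, h2, h3, h4⟩ := hL
          rw [e]
          refine ⟨h1.mul_right _, nd2_mul h2 hD, nd_mul h3 hD, ?_⟩
          rw [show κ 0 * (A * D) = κ 0 * A * D by ring, jac_mulD hDj]
          exact h4
        · rw [if_neg c2] at hL ⊢
          obtain ⟨h1, h2, h3, h4, h5, h6, h7, h8⟩ := hL
          rw [e]
          refine ⟨h1.mul_right _, h2.mul_right _, nd2_mul h3 hD, nd2_mul h4 hD, nd2_mul h5 hD,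
            ?_, ?_, ?_⟩
          · rw [Int.mul_ediv_assoc' D h1, ← mul_assoc, jac_mulD hDj]
            exact h6
          · rw [Int.mul_ediv_assoc' D h2, ← mul_assoc, jac_mulD hDj]
            exact h7
          · rw [Int.mul_ediv_assoc' D (dvd_sub h1 h2), ← mul_assoc, jac_mulD hDj]
            exact h8
  · have := sq_tr hx t1 s1
    push_cast
    exact this
  · have := sq_tr hxA t2 s2
    push_cast at this ⊢
    exact this

end Pool.Agent.W307.SE
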