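import Mathlib
import Pool.Agent.W307.SE.Fin
import Pool.Agent.W307.SE.Locp
import Pool.Agent.W407.SE.Ratp
import Pool.Agent.W405.SE.GoodP
import Pool.Agent.W612.SE.Seld
import Pool.Agent.W409.SE.Sel2B
import Pool.Agent.W500.SE.SEL4B
import Pool.Agent.W924.SE.PARX4
import Pool.Agent.W645.SE.Parx6
import Pool.Agent.W597.SE.SELC

/-! Project SE: the averages of the orders of the 2-Selmer groups. -/

namespace Pool.Agent.W307.SE

open Finset Pool.Agent.W262.RK Pool.Agent.W307.RT Pool.Agent.W307.RS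

theorem seld : SELD := Pool.Agent.W612.SE.seld_of
  (Pool.Agent.W405.SE.goodp_of Pool.Agent.W407.SE.ratp)

theorem selc : SELC := Pool.Agent.W597.SE.selc

theorem avg2sel : AVG2G SN :=
  avg2g_of SN_nonneg
    (r2 (Pool.Agent.W409.SE.sel2b_of seld (locmp_of Pool.Agent.W407.SE.ratp)))
    (Pool.Agent.W839.RS.cnt2s_of Pool.Agent.W340.RT.SVR2.svr2 Pool.Agent.W405.RS.avhs) antu

theorem avgksel : AVGKG SN :=
  avgkg_of SN_nonneg (Pool.Agent.W337.RS.cnt4u_of Pool.Agent.W340.RT.SVR2.svr2)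
    (r4 (Pool.Agent.W500.SE.sel4b_of seld (loclp_of Pool.Agent.W407.SE.ratp)))
    antu Pool.Agent.W925.RS.subbk
    (mak_of Pool.Agent.W125.RS.expk Pool.Agent.W12.RS.combk)

/-- **the average of the orders of the 2-Selmer groups of the curves with `Z/2 x Z/4`** -/
theorem sel4 : ∃ C : ℝ, ∀ H : ℕ, (∀ c ∈ Cv 4 H, (SelR c.1 c.2).Finite) ∧
    ∑ c ∈ Cv 4 H, ((SelR c.1 c.2).ncard : ℝ) ≤ C * (Cv 4 H).card :=
  curves_of (by norm_num) Pool.Agent.W924.SE.parx4 Pool.Agent.W29.RT.low4 seld selc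
    (box_of (famg_of SN_nonneg avg2sel (Fin 4) c4 (fun _ => -1) m4 α4 β4 (by decide) (by decide)
      (by decide) (by decide) (by decide) (by decide) (fun j => by revert j; decide)
      (fun u v => by rw [FM40, FM41, FM42]; ring) nb4 2 M4 N4 FM40 FM41))

/-- **the average of the orders of the 2-Selmer groups of the curves with `Z/2 x Z/6`** -/
theorem sel6 : ∃ C : ℝ, ∀ H : ℕ, (∀ c ∈ Cv 6 H, (SelR c.1 c.2).Finite) ∧
    ∑ c ∈ Cv 6 H, ((SelR c.1 c.2).ncard : ℝ) ≤ C * (Cv 6 H).card :=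
  curves_of (by norm_num) Pool.Agent.W645.SE.parx6 Pool.Agent.W376.RTL.low6 seld selc
    (box_of (famg_of SN_nonneg avg2sel (Fin 6) c6 (fun _ => -1) m6 α6 β6 (by decide) (by decide)
      (by decide) (by decide) (by decide) (by decide) (fun j => Or.inl (by revert j; decide))
      (fun u v => by rw [FM60, FM61, FM62]; ring)
      (ma4 Pool.Agent.W762.RK2.exp4 Pool.Agent.W125.RK2.comb4 c6 _ 2 _ (by decide)
        (fun j _ => by revert j; decide)) 3 M6 N6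
      (fun u v => by rw [FM60]; norm_num) (fun u v => by rw [FM61]; norm_num)))

/-- the 2-Selmer group of a twist -/
lemma tw_sel {A B e1 e2 e3 : ℤ} (hD : 4 * A ^ 3 + 27 * B ^ 2 ≠ 0)
    (h : ∀ x : ℤ, x ^ 3 + A * x + B = (x - e1) * (x - e2) * (x - e3)) {d : ℤ} (hd : d ≠ 0) :
    (SelR (d ^ 2 * A) (d ^ 3 * B)).Finite ∧
      ((SelR (d ^ 2 * A) (d ^ 3 * B)).ncard : ℝ) ≤ SN ((e2 - e1) * d) ((e3 - e1) * d) := by
  have h0 := h 0
  have h1 := h 1
  have h2 := h (-1)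
  have hs : e1 + e2 + e3 = 0 := by linarith
  have hA : A = e1 * e2 + e1 * e3 + e2 * e3 := by linarith
  have hB : B = -(e1 * e2 * e3) := by linarith
  have he3 : e3 = -e1 - e2 := by linarith
  have hdisc : 4 * A ^ 3 + 27 * B ^ 2 = -((e1 - e2) * (e1 - e3) * (e2 - e3)) ^ 2 := by
    rw [hA, hB, he3]; ring
  have hD' := hD
  rw [hdisc] at hD'
  have h12 : e2 - e1 ≠ 0 := by
    intro h'; apply hD'; rw [show e1 - e2 = -(e2 - e1) by ring, h']; ring
  have h13 : e3 - e1 ≠ 0 := by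
    intro h'; apply hD'; rw [show e1 - e3 = -(e3 - e1) by ring, h']; ring
  have h23 : e2 - e3 ≠ 0 := by
    intro h'; apply hD'; rw [h']; ring
  have hfin := sel_fin seld (A := (e2 - e1) * d) (B := (e3 - e1) * d) (mul_ne_zero h12 hd)
    (mul_ne_zero h13 hd) (fun h' => h23 (by
      have := mul_right_cancel₀ hd h'
      linarith))
  obtain ⟨f1, f2⟩ := selc (d ^ 2 * A) (d ^ 3 * B) (d * e1) (d * e2) (d * e3) ((e2 - e1) * d)
    ((e3 - e1) * d) 1 (by
      have e : 4 * (d ^ 2 * A) ^ 3 + 27 * (d ^ 3 * B) ^ 2 =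
        d ^ 6 * (4 * A ^ 3 + 27 * B ^ 2) := by ring
      rw [e]
      exact mul_ne_zero (pow_ne_zero _ hd) hD) (fun x => by
      rw [hA, hB, he3]
      ring) one_ne_zero (by push_cast; ring) (by push_cast; ring) hfin
  refine ⟨f1, ?_⟩
  unfold SN
  exact_mod_cast f2

/-- **the moments of the orders of the 2-Selmer groups of the twists** -/
theorem selk {A B e1 e2 e3 : ℤ} (hD : 4 * A ^ 3 + 27 * B ^ 2 ≠ 0)
    (h : ∀ x : ℤ, x ^ 3 + A * x + B = (x - e1) * (x - e2) * (x - e3))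
    (m : ℕ) (γ δ : Fin m → ℤ) (hγ : ∀ i, γ i ≠ 0)
    (hγδ : ∀ i j, i ≠ j → γ i * δ j ≠ γ j * δ i) (k L : ℕ) :
    (∀ t : ℤ, ∏ i, (γ i * t + δ i) ≠ 0 → (SelR ((∏ i, (γ i * t + δ i)) ^ 2 * A)
          ((∏ i, (γ i * t + δ i)) ^ 3 * B)).Finite) ∧
    ∃ C : ℝ, ∀ (N : ℤ) (M : ℕ), 1 ≤ M → |N| ≤ (M : ℤ) ^ L →
      ∑ t ∈ (Ioc N (N + M)).filter (fun t => ∏ i, (γ i * t + δ i) ≠ 0),
        ((SelR ((∏ i, (γ i * t + δ i)) ^ 2 * A)
          ((∏ i, (γ i * t + δ i)) ^ 3 * B)).ncard : ℝ) ^ k ≤ C * M := by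
  refine ⟨fun t ht => (tw_sel hD h ht).1, ?_⟩
  rcases Nat.eq_zero_or_pos k with hk | hk
  · subst hk
    refine ⟨1, fun N M hM _ => ?_⟩
    simp only [pow_zero, sum_const, nsmul_eq_mul, mul_one, one_mul]
    have h1 := card_filter_le (Ioc N (N + (M : ℤ))) (fun t => ∏ i, (γ i * t + δ i) ≠ 0)
    rw [Int.card_Ioc] at h1
    have h2 : (N + (M : ℤ) - N).toNat = M := by omega
    rw [h2] at h1
    exact_mod_cast h1
  have h0 := h 0
  have h1 := h 1
  have h2 := h (-1)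
  have hs : e1 + e2 + e3 = 0 := by linarith
  have hA : A = e1 * e2 + e1 * e3 + e2 * e3 := by linarith
  have hB : B = -(e1 * e2 * e3) := by linarith
  have he3 : e3 = -e1 - e2 := by linarith
  have hdisc : 4 * A ^ 3 + 27 * B ^ 2 = -((e1 - e2) * (e1 - e3) * (e2 - e3)) ^ 2 := by
    rw [hA, hB, he3]; ring
  have hD' := hD
  rw [hdisc] at hD'
  have h12 : e2 - e1 ≠ 0 := by
    intro h'; apply hD'; rw [show e1 - e2 = -(e2 - e1) by ring, h']; ring
  have h13 : e3 - e1 ≠ 0 := by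
    intro h'; apply hD'; rw [show e1 - e3 = -(e3 - e1) by ring, h']; ring
  have h23 : e2 - e3 ≠ 0 := by
    intro h'; apply hD'; rw [h']; ring
  obtain ⟨C, hC⟩ := avgksel (Fin m) ![e2 - e1, e3 - e1, e2 - e3] γ δ k L
    (by
      intro i
      fin_cases i
      · exact h12
      · exact h13
      · exact h23)
    (by
      change (e2 - e1) - (e3 - e1) = e2 - e3
      ring) hγ (fun i j hij => by
      unfold Res
      exact sub_ne_zero.2 (hγδ i j hij)) hk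
  refine ⟨C, fun N M hM hN => ?_⟩
  have hN' : N.natAbs ≤ M ^ L := by
    have : ((N.natAbs : ℕ) : ℤ) ≤ ((M ^ L : ℕ) : ℤ) := by
      rw [Int.natCast_natAbs]
      push_cast
      exact hN
    exact_mod_cast this
  set g : ℤ → ℝ := fun t => SN ((![e2 - e1, e3 - e1, e2 - e3] :
    Fin 3 → ℤ) 0 * ∏ j, ff γ δ t j) ((![e2 - e1, e3 - e1, e2 - e3] : Fin 3 → ℤ) 1 *
      ∏ j, ff γ δ t j) ^ k with hg
  have hinj : Set.InjOn (fun t : ℕ => N + (t : ℤ)) ((Icc 1 M).filter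
      (fun t : ℕ => ∀ j, ff γ δ (N + (t : ℤ)) j ≠ 0) : Set ℕ) := by
    intro a _ b _ hab
    have : N + (a : ℤ) = N + (b : ℤ) := hab
    omega
  have hsum : ∑ t ∈ (Icc 1 M).filter (fun t : ℕ => ∀ j, ff γ δ (N + (t : ℤ)) j ≠ 0),
      g (N + (t : ℤ)) = ∑ t ∈ ((Icc 1 M).filter
        (fun t : ℕ => ∀ j, ff γ δ (N + (t : ℤ)) j ≠ 0)).image (fun t : ℕ => N + (t : ℤ)), g t :=
    (sum_image hinj).symm
  have hE : ∑ t ∈ (Icc 1 M).filter (fun t : ℕ => ∀ j, ff γ δ (N + (t : ℤ)) j ≠ 0),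
      g (N + (t : ℤ)) ≤ C * M := by
    convert hC N M hM hN'
  refine le_trans ?_ hE
  rw [hsum]
  refine le_trans (sum_le_sum (g := g) fun t ht => ?_) (sum_le_sum_of_subset_of_nonneg ?_ ?_)
  · exact pow_le_pow_left₀ (Nat.cast_nonneg _) (tw_sel hD h (mem_filter.1 ht).2).2 k
  · intro t ht
    rw [mem_filter, mem_Ioc] at ht
    obtain ⟨⟨ht1, ht2⟩, ht3⟩ := ht
    rw [mem_image]
    refine ⟨(t - N).toNat, ?_, ?_⟩
    · rw [mem_filter, mem_Icc]
      have h5 : N + (((t - N).toNat : ℕ) : ℤ) = t := by omega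
      refine ⟨by omega, fun j => ?_⟩
      rw [h5]
      exact prod_ne_zero_iff.1 ht3 j (mem_univ j)
    · show N + (((t - N).toNat : ℕ) : ℤ) = t
      omega
  · intro t _ _
    exact pow_nonneg (SN_nonneg _ _) _

end Pool.Agent.W307.SE
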